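import Pool.Agent.helper12.DD.Spec

set_option autoImplicit false

open Pool.Agent.helper49.Blk

namespace Pool.Agent.DD

theorem OPX_mem_norm {G : Type} [Group G] (Q : Subgroup G) (x : G) :
    x ∈ Subgroup.normalizer (Q : Set G) ↔ ∀ h : G, h ∈ Q ↔ x * h * x⁻¹ ∈ Q :=
  Subgroup.mem_normalizer_iff

/-- the projections of a group normalised by `x` are normalised -/
theorem OPX_map {A G : Type} [Group A] [Group G] (f : G →* A) (Q : Subgroup G) (x : G)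
    (hx : x ∈ Subgroup.normalizer (Q : Set G)) (a : A) (ha : a ∈ Q.map f) :
    f x * a * (f x)⁻¹ ∈ Q.map f := by
  obtain ⟨q, hq, rfl⟩ := ha
  refine ⟨x * q * x⁻¹, ?_, by simp⟩
  exact ((OPX_mem_norm Q x).1 hx q).1 hq

theorem OPX_norm_of {G : Type} [Group G] (H Q : Subgroup G)
    (h : ∀ x ∈ H, ∀ q ∈ Q, x * q * x⁻¹ ∈ Q) : H ≤ Subgroup.normalizer (Q : Set G) := by
  intro x hx
  rw [OPX_mem_norm]
  intro q
  constructor
  · exact h x hx q
  · intro hq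
    have h1 := h x⁻¹ (H.inv_mem hx) _ hq
    have h2 : x⁻¹ * (x * q * x⁻¹) * x⁻¹⁻¹ = q := by group
    rwa [h2] at h1

theorem OPX_pg {A B : Type} [Group A] [Group B] (p : ℕ) (P : Subgroup A) (Q : Subgroup B)
    (hP : IsPGroup p P) (hQ : IsPGroup p Q) : IsPGroup p ↥(P.prod Q) := by
  rintro ⟨⟨a, b⟩, ha, hb⟩
  obtain ⟨k, hk⟩ := hP ⟨a, ha⟩
  obtain ⟨l, hl⟩ := hQ ⟨b, hb⟩
  have hk' : a ^ p ^ k = 1 := congrArg Subtype.val hk
  have hl' : b ^ p ^ l = 1 := congrArg Subtype.val hl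
  refine ⟨k + l, ?_⟩
  apply Subtype.ext
  show (a, b) ^ p ^ (k + l) = 1
  rw [Prod.pow_mk, pow_add, pow_mul, hk', mul_comm, pow_mul, hl', one_pow, one_pow]
  rfl

theorem OPX (h1 : NPR_stmt) (h2 : OPP_stmt) : OPX_stmt := by
  intro A B _ _ _ _ p hp H₁ P₁ H₂ P₂ hP₁ hP₂ Q
  have hprod : ∀ (Q₁ : Subgroup A) (Q₂ : Subgroup B),
      (IsOp p (H₁.prod H₂ ⊓ Subgroup.normalizer ((Q₁.prod Q₂ : Subgroup (A × B)) : Set (A × B)))
        (Q₁.prod Q₂) ↔
      IsOp p (H₁ ⊓ Subgroup.normalizer (Q₁ : Set A)) Q₁ ∧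
        IsOp p (H₂ ⊓ Subgroup.normalizer (Q₂ : Set B)) Q₂) := by
    intro Q₁ Q₂
    obtain ⟨hN, hp1, hp2, hI⟩ := h1 A B Q₁ Q₂
    rw [hN, hI, h2 A B p hp]
    constructor
    · rintro ⟨R₁, R₂, hR, hR₁, hR₂⟩
      obtain ⟨-, hr1, hr2, -⟩ := h1 A B R₁ R₂
      have e1 : Q₁ = R₁ := by rw [← hp1, ← hr1, hR]
      have e2 : Q₂ = R₂ := by rw [← hp2, ← hr2, hR]
      rw [← e1] at hR₁
      rw [← e2] at hR₂
      exact ⟨hR₁, hR₂⟩
    · rintro ⟨ha, hb⟩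
      exact ⟨Q₁, Q₂, rfl, ha, hb⟩
  constructor
  · rintro ⟨hlt, hop⟩
    obtain ⟨⟨hQle, hQp, hQn⟩, hub⟩ := hop
    have hQH : Q ≤ H₁.prod H₂ := hQle.trans inf_le_left
    set R : Subgroup (A × B) := (p1 Q).prod (p2 Q) with hRdef
    have hQR : Q ≤ R := by
      intro x hx
      exact ⟨⟨x, hx, rfl⟩, ⟨x, hx, rfl⟩⟩
    have hRp : IsPGroup p R := OPX_pg p _ _ (hQp.map _) (hQp.map _)
    have hRH : R ≤ H₁.prod H₂ := by
      rintro ⟨a, b⟩ ⟨⟨x, hx, hxa⟩, ⟨y, hy, hyb⟩⟩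
      have hx1 := (hQH hx).1
      have hy1 := (hQH hy).2
      have e1 : x.1 = a := hxa
      have e2 : y.2 = b := hyb
      rw [e1] at hx1
      rw [e2] at hy1
      exact ⟨hx1, hy1⟩
    have hmem : R ⊓ Subgroup.normalizer (Q : Set (A × B)) ∈
        {Q' : Subgroup (A × B) | Q' ≤ H₁.prod H₂ ⊓ Subgroup.normalizer (Q : Set (A × B)) ∧
          IsPGroup p Q' ∧ H₁.prod H₂ ⊓ Subgroup.normalizer (Q : Set (A × B)) ≤
            Subgroup.normalizer (Q' : Set (A × B))} := by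
      refine ⟨inf_le_inf_right _ hRH, hRp.to_le inf_le_left, ?_⟩
      apply OPX_norm_of
      rintro x ⟨hxH, hxN⟩ q ⟨hqR, hqN⟩
      refine ⟨⟨?_, ?_⟩, ?_⟩
      · exact OPX_map (MonoidHom.fst A B) Q x hxN q.1 hqR.1
      · exact OPX_map (MonoidHom.snd A B) Q x hxN q.2 hqR.2
      · exact Subgroup.mul_mem _ (Subgroup.mul_mem _ hxN hqN) (Subgroup.inv_mem _ hxN)
    have hle : R ⊓ Subgroup.normalizer (Q : Set (A × B)) ≤ Q := hub hmem
    have hQeq : Q = R := by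
      by_contra hne
      have hnt : Q.subgroupOf R < ⊤ := by
        rw [lt_top_iff_ne_top]
        intro htop
        exact hne (le_antisymm hQR (Subgroup.subgroupOf_eq_top.1 htop))
      have : Fact p.Prime := ⟨hp⟩
      have : Group.IsNilpotent R := hRp.isNilpotent
      have hnc : NormalizerCondition R := Group.normalizerCondition_of_isNilpotent
      have hlt2 := hnc _ hnt
      obtain ⟨x, hx, hxn⟩ := SetLike.exists_of_lt hlt2
      apply hxn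
      rw [Subgroup.mem_subgroupOf]
      apply hle
      refine ⟨x.2, (OPX_mem_norm Q x).2 ?_⟩
      rw [OPX_mem_norm] at hx
      intro q
      constructor
      · intro hq
        exact (hx ⟨q, hQR hq⟩).1 hq
      · intro hq
        have hq2 : (x : A × B) * q * (x : A × B)⁻¹ ∈ R := hQR hq
        have hq3 : q ∈ R := by
          have h3 := R.mul_mem (R.mul_mem (R.inv_mem x.2) hq2) x.2
          have h4 : (x : A × B)⁻¹ * ((x : A × B) * q * (x : A × B)⁻¹) * (x : A × B) = q := by group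
          rwa [h4] at h3
        exact (hx ⟨q, hq3⟩).2 hq
    have hopR : IsOp p (H₁.prod H₂ ⊓ Subgroup.normalizer ((R : Subgroup (A × B)) : Set (A × B)))
        R := by
      rw [← hQeq]
      exact ⟨⟨hQle, hQp, hQn⟩, hub⟩
    obtain ⟨hN, hp1, hp2, -⟩ := h1 A B P₁ P₂
    have hP₁Q : P₁ ≤ p1 Q := by
      rw [← hp1]
      exact Subgroup.map_mono hlt.le
    have hP₂Q : P₂ ≤ p2 Q := by
      rw [← hp2]
      exact Subgroup.map_mono hlt.le
    refine ⟨p1 Q, p2 Q, hQeq, hP₁Q, hP₂Q, ?_, (hprod _ _).1 hopR⟩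
    by_contra hcon
    push Not at hcon
    obtain ⟨e1, e2⟩ := hcon
    apply hlt.ne
    rw [hQeq, hRdef, ← e1, ← e2]
  · rintro ⟨Q₁, Q₂, rfl, hl1, hl2, hne, ho1, ho2⟩
    refine ⟨lt_of_le_of_ne (Subgroup.prod_mono hl1 hl2) ?_, (hprod _ _).2 ⟨ho1, ho2⟩⟩
    intro heq
    obtain ⟨-, hp1, hp2, -⟩ := h1 A B P₁ P₂
    obtain ⟨-, hq1, hq2, -⟩ := h1 A B Q₁ Q₂
    have e1 : P₁ = Q₁ := by rw [← hp1, ← hq1, heq]
    have e2 : P₂ = Q₂ := by rw [← hp2, ← hq2, heq]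
    rcases hne with h | h
    · exact h e1
    · exact h e2

end Pool.Agent.DD
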